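import Pool.Agent.Helper84.TL.Defs

/-!
# Project TL (MP_56afde_co), module TL-A: expectation over random subsets
-/

set_option autoImplicit false
set_option linter.unusedVariables false

namespace Pool.Agent.Helper84.TL

open Finset Pool.Agent.Lead.TB

section A

variable {α : Type} [DecidableEq α]

theorem Eb_const (X : Finset α) (τ c : ℝ) : Eb X τ (fun _ => c) = c := by
  unfold Eb
  rw [← Finset.sum_mul, Finset.sum_pow_mul_eq_add_pow, add_sub_cancel, one_pow, one_mul]

theorem Eb_add (X : Finset α) (τ : ℝ) (f h : Finset α → ℝ) :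
    Eb X τ (fun A => f A + h A) = Eb X τ f + Eb X τ h := by
  unfold Eb
  rw [← Finset.sum_add_distrib]
  exact Finset.sum_congr rfl fun A _ => by ring

theorem Eb_mul (X : Finset α) (τ c : ℝ) (f : Finset α → ℝ) :
    Eb X τ (fun A => c * f A) = c * Eb X τ f := by
  unfold Eb
  rw [Finset.mul_sum]
  exact Finset.sum_congr rfl fun A _ => by ring

theorem Eb_sum {β : Type} (S : Finset β) (X : Finset α) (τ : ℝ) (f : β → Finset α → ℝ) :
    Eb X τ (fun A => ∑ b ∈ S, f b A) = ∑ b ∈ S, Eb X τ (f b) := by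
  unfold Eb
  rw [Finset.sum_comm]
  exact Finset.sum_congr rfl fun A _ => by rw [Finset.mul_sum]

theorem Eb_mono {X : Finset α} {τ : ℝ} (h0 : 0 ≤ τ) (h1 : τ ≤ 1) {f h : Finset α → ℝ}
    (hfh : ∀ A, A ⊆ X → f A ≤ h A) : Eb X τ f ≤ Eb X τ h := by
  unfold Eb
  refine Finset.sum_le_sum fun A hA => ?_
  have h2 : 0 ≤ 1 - τ := by linarith
  exact mul_le_mul_of_nonneg_left (hfh A (Finset.mem_powerset.1 hA)) (by positivity)

theorem Eb_congr {X : Finset α} {τ : ℝ} {f h : Finset α → ℝ}
    (hfh : ∀ A, A ⊆ X → f A = h A) : Eb X τ f = Eb X τ h := by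
  unfold Eb
  exact Finset.sum_congr rfl fun A hA => by rw [hfh A (Finset.mem_powerset.1 hA)]

theorem Eb_insert {x : α} {X : Finset α} (hx : x ∉ X) (τ : ℝ) (f : Finset α → ℝ) :
    Eb (insert x X) τ f = τ * Eb X τ (fun A => f (insert x A)) + (1 - τ) * Eb X τ f := by
  unfold Eb
  rw [Finset.sum_powerset_insert hx, Finset.mul_sum, Finset.mul_sum, add_comm]
  congr 1
  · refine Finset.sum_congr rfl fun A hA => ?_
    have hAX := Finset.mem_powerset.1 hA
    have hxA : x ∉ A := fun h => hx (hAX h)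
    rw [Finset.card_insert_of_notMem hx, Finset.card_insert_of_notMem hxA,
      Nat.add_sub_add_right, pow_succ]
    ring
  · refine Finset.sum_congr rfl fun A hA => ?_
    have hAX := Finset.card_le_card (Finset.mem_powerset.1 hA)
    rw [Finset.card_insert_of_notMem hx, Nat.sub_add_comm hAX, pow_succ]
    ring

theorem h36_Eb_empty (τ : ℝ) (f : Finset α → ℝ) : Eb ∅ τ f = f ∅ := by
  unfold Eb
  simp

/-- Fubini. -/
theorem Eb_union {Y Z : Finset α} (hd : Disjoint Y Z) (τ : ℝ) (f : Finset α → ℝ) :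
    Eb (Y ∪ Z) τ f = Eb Y τ (fun A => Eb Z τ (fun B => f (A ∪ B))) := by
  induction Z using Finset.induction_on generalizing f with
  | empty =>
    rw [Finset.union_empty]
    exact Eb_congr fun A _ => by rw [h36_Eb_empty, Finset.union_empty]
  | insert z Z hz ih =>
    have hd' : Disjoint Y Z := hd.mono_right (Finset.subset_insert z Z)
    have hzY : z ∉ Y := fun h => (Finset.disjoint_left.1 hd) h (Finset.mem_insert_self z Z)
    have hzU : z ∉ Y ∪ Z := by
      rw [Finset.mem_union]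
      exact fun h => h.elim hzY hz
    rw [Finset.union_insert, Eb_insert hzU, ih hd', ih hd']
    rw [← Eb_mul, ← Eb_mul, ← Eb_add]
    refine Eb_congr fun A _ => ?_
    rw [Eb_insert hz]
    simp only [Finset.union_insert]

/-- Functions of disjoint parts are independent. -/
theorem Eb_indep {X Y Z : Finset α} (hY : Y ⊆ X) (hZ : Z ⊆ X) (hd : Disjoint Y Z) (τ : ℝ)
    (f h : Finset α → ℝ) :
    Eb X τ (fun A => f (A ∩ Y) * h (A ∩ Z)) = Eb Y τ f * Eb Z τ h := by
  have key : ∀ (X Y : Finset α), Y ⊆ X → ∀ g : Finset α → ℝ,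
      Eb X τ (fun A => g (A ∩ Y)) = Eb Y τ g := by
    intro X Y hYX g
    have hX : X = Y ∪ (X \ Y) := (Finset.union_sdiff_of_subset hYX).symm
    have hdj : Disjoint Y (X \ Y) := Finset.disjoint_sdiff
    conv_lhs => rw [hX]
    rw [Eb_union hdj]
    refine Eb_congr fun A hA => ?_
    rw [← Eb_const (X \ Y) τ (g A)]
    refine Eb_congr fun B hB => ?_
    congr 1
    ext a
    simp only [Finset.mem_inter, Finset.mem_union]
    constructor
    · rintro ⟨h1 | h1, h2⟩
      · exact h1
      · exact absurd h2 (Finset.mem_sdiff.1 (hB h1)).2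
    · intro h1
      exact ⟨Or.inl h1, hA h1⟩
  have hX : X = Y ∪ (X \ Y) := (Finset.union_sdiff_of_subset hY).symm
  have hdj : Disjoint Y (X \ Y) := Finset.disjoint_sdiff
  have hZ' : Z ⊆ X \ Y := fun z hz =>
    Finset.mem_sdiff.2 ⟨hZ hz, fun h => (Finset.disjoint_left.1 hd) h hz⟩
  conv_lhs => rw [hX]
  rw [Eb_union hdj, mul_comm, ← Eb_mul]
  refine Eb_congr fun A hA => ?_
  rw [← key (X \ Y) Z hZ' h, mul_comm, ← Eb_mul]
  refine Eb_congr fun B hB => ?_
  congr 2
  · ext a
    simp only [Finset.mem_inter, Finset.mem_union]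
    constructor
    · rintro ⟨h1 | h1, h2⟩
      · exact h1
      · exact absurd h2 (Finset.mem_sdiff.1 (hB h1)).2
    · intro h1
      exact ⟨Or.inl h1, hA h1⟩
  · ext a
    simp only [Finset.mem_inter, Finset.mem_union]
    constructor
    · rintro ⟨h1 | h1, h2⟩
      · exact absurd h2 (fun h3 => (Finset.disjoint_left.1 hd) (hA h1) h3)
      · exact ⟨h1, h2⟩
    · rintro ⟨h1, h2⟩
      exact ⟨Or.inr h1, h2⟩

theorem Eb_inter {X Y : Finset α} (hY : Y ⊆ X) (τ : ℝ) (f : Finset α → ℝ) :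
    Eb X τ (fun A => f (A ∩ Y)) = Eb Y τ f := by
  have h := Eb_indep hY (Finset.empty_subset X) (Finset.disjoint_empty_right Y) τ f (fun _ => 1)
  rw [Eb_const, mul_one] at h
  rw [← h]
  exact Eb_congr fun A _ => (mul_one _).symm

theorem Eb_card (X : Finset α) (τ : ℝ) (f : ℕ → ℝ) :
    Eb X τ (fun A => f A.card) =
      ∑ k ∈ range (X.card + 1), (X.card.choose k : ℝ) * τ ^ k * (1 - τ) ^ (X.card - k) * f k := by
  unfold Eb
  have h := Finset.sum_powerset_apply_card (x := X)
    (fun k => τ ^ k * (1 - τ) ^ (X.card - k) * f k)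
  refine h.trans ?_
  refine Finset.sum_congr rfl fun k _ => ?_
  rw [nsmul_eq_mul]
  ring

end A

end Pool.Agent.Helper84.TL
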